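import Pool.Agent.Q104.IC.Grp

/-!
MP_fae9ec_al, Q1: there are a Hausdorff topological group `G` and a closed subgroup `H` such that
`G/H` is a faithful irreducible coset space, an abelian minimal nontrivial closed normal subgroup `M`
of `G`, and a nontrivial closed normal subgroup `N` of `G` with `M ∩ N = 1`.

The definitions `IrreducibleCosetSpace`, `FaithfulCosetSpace`, `MinimalClosedNormal` are in
`Pool/Agent/Q104/IC/Grp.lean`.

The group: let `V` be the group of the finitely supported functions `ℕ → (ℤ/2)²`. There is a subset
`R` of `V` which is generic: every finite pattern over every finite set of coordinates is realised by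
a new coordinate. `H` is the group of the maps `u ↦ σ u + v` (`σ` a permutation of `ℕ`, `v ∈ V`) that
preserve `R`, and `G` is generated by `H` and the translations, with the topology of pointwise
convergence on the discrete set `V`. By a back-and-forth argument every affine map is a limit of
elements of `H` composed with translations by vectors `l (δ_c - δ_x)`, for each given `l ≠ 0`; so a
closed subgroup that contains `H` properly is `G`. For `l ≠ 0` the sums of vectors `l (δ_c - δ_x)`
form an abelian minimal closed normal subgroup, and two of these meet trivially.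
-/

set_option autoImplicit false

namespace Pool.Agent.Results.MP_fae9ec_al.AbelianAndComplement

open Pool.Agent.Q104.IC

theorem result : ∃ (G : Type) (_ : Group G) (_ : TopologicalSpace G) (_ : IsTopologicalGroup G)
    (_ : T2Space G) (H : Subgroup G),
    -- `G/H` is a faithful irreducible coset space
    IrreducibleCosetSpace H ∧ FaithfulCosetSpace H ∧
    -- `M` is an abelian minimal nontrivial closed normal subgroup
    ∃ M ∈ MinimalClosedNormal G, (∀ a ∈ M, ∀ b ∈ M, a * b = b * a) ∧
      -- `N` is a nontrivial closed normal subgroup with `M ∩ N = 1`
      ∃ N : Subgroup G, N.Normal ∧ IsClosed (N : Set G) ∧ N ≠ ⊥ ∧ M ⊓ N = ⊥ := by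
  obtain ⟨R, hR⟩ := exists_generic (W := ZMod 2 × ZMod 2)
  have h2 : ∀ l : ZMod 2 × ZMod 2, l + l = 0 := by decide
  have h3 := MM_minimal hR (l := (0, 1)) (by decide) (h2 _)
  exact ⟨GG R, inferInstance, tp (GG R), topGroup (GG R), t2 (GG R), HG R, irreducible hR,
    faithful hR, MM R (1, 0), MM_minimal hR (by decide) (h2 _), MM_comm _, MM R (0, 1), h3.1,
    h3.2.1, h3.2.2.1, MM_inf (h2 _) (h2 _) (by decide)⟩

end Pool.Agent.Results.MP_fae9ec_al.AbelianAndComplement
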